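import Pool.Agent.H81.Sid.Theta

/-!
The counting function and the difference set of a Sidon set.
-/

namespace Pool.Agent.Results.MP_ebe006_nt.DifferenceSet

open Finset Pool.Agent.H81.Sid

open Classical in
/-- The theorem of Erdős on the counting function `A(n)` of a Sidon set `A`, with the difference
set. Here `θ_A(w)` is the proportion of the pairs `(i, j)` with `0 ≤ i, j < w` for which `i - j` is
a nonzero difference of two elements of `A`. For every `ε > 0` and all large `w`, every Sidon set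
has `θ_A(w) ≤ 1` and an `n` in `[w, w^2]` with
`A(n)^2 < ((4 / log 2) θ_A(w) + ε) n / log n`. Hence, if the difference set of `A` has lower
density zero, then for every `ε > 0` one has `A(n) < ε √(n / log n)` for infinitely many `n`. -/
theorem result :
    (∀ ε : ℝ, 0 < ε → ∃ w0 : ℕ, ∀ w : ℕ, w0 ≤ w → ∀ A : Set ℕ, IsSidon A →
      theta A w ≤ 1 ∧
      ∃ n : ℕ, w ≤ n ∧ n ≤ w ^ 2 ∧
        (cnt A n : ℝ) ^ 2 < (4 / Real.log 2 * theta A w + ε) * (n / Real.log n)) ∧
    (∀ A : Set ℕ, IsSidon A →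
      (∀ ε : ℝ, 0 < ε → ∀ w1 : ℕ, ∃ w : ℕ, w1 ≤ w ∧
        (((Icc 1 w).filter (fun d => ∃ a ∈ A, ∃ b ∈ A, a = b + d)).card : ℝ) ≤ ε * w) →
      ∀ ε : ℝ, 0 < ε → ∀ n1 : ℕ, ∃ n : ℕ, n1 ≤ n ∧
        (cnt A n : ℝ) < ε * Real.sqrt (n / Real.log n)) := by
  refine ⟨fun ε hε => ?_, fun A hA h ε hε n1 => zero_density hA h hε n1⟩
  obtain ⟨w0, hw0⟩ := liminf_theta hε
  exact ⟨max w0 1, fun w hw A hA => ⟨theta_le_one ((le_max_right _ _).trans hw),
    hw0 w ((le_max_left _ _).trans hw) A hA⟩⟩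

end Pool.Agent.Results.MP_ebe006_nt.DifferenceSet
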