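import Mathlib

/-!
# Sidon sets and kernel complexity

For a base `k ≥ 2` the `k`-kernel of `A ⊆ ℕ` consists of the sets `{n | k ^ i * n + r ∈ A}`,
`r < k ^ i`. A Sidon set has at most `(k * l + 1) * K(l)` elements below `k ^ l`, where `K(l)` is
the number of different kernel sets of level at most `l`. In particular a `k`-automatic Sidon set
has `O(log n)` elements up to `n`, and this is attained by the powers of `k`.
-/

namespace Pool.Agent.Results.MP_ebe006_nt.KernelComplexity

/-- `A` is a Sidon set: every `n` has at most one representation `n = a + b` with `a ≤ b` in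
`A`. -/
def IsSidon (A : Set ℕ) : Prop :=
  ∀ a ∈ A, ∀ b ∈ A, ∀ c ∈ A, ∀ d ∈ A, a ≤ b → c ≤ d → a + b = c + d → a = c ∧ b = d

/-- The counting function `A(n)`, the number of elements of `A` in `{1, …, n}`. -/
noncomputable def count (A : Set ℕ) (n : ℕ) : ℕ := (A ∩ Set.Icc 1 n).ncard

/-- The kernel set `{n | k ^ i * n + r ∈ A}`. -/
def residual (k : ℕ) (A : Set ℕ) (i r : ℕ) : Set ℕ := {n | k ^ i * n + r ∈ A}

/-- The different kernel sets of level at most `l`. -/
def kernelUpTo (k : ℕ) (A : Set ℕ) (l : ℕ) : Set (Set ℕ) :=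
  {S | ∃ i r, i ≤ l ∧ r < k ^ i ∧ S = residual k A i r}

/-- The kernel complexity: the number of different kernel sets of level at most `l`. -/
noncomputable def kernelCount (k : ℕ) (A : Set ℕ) (l : ℕ) : ℕ := (kernelUpTo k A l).ncard

/-- `A` is `k`-automatic: its `k`-kernel is finite. -/
def IsAutomatic (k : ℕ) (A : Set ℕ) : Prop :=
  {S : Set ℕ | ∃ i r, r < k ^ i ∧ S = residual k A i r}.Finite

/-- The kernel complexity of `A` in base `k` is subexponential: for every `m` there are
arbitrarily large `l` with `kernelCount k A l < k ^ (l / m)`. -/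
def IsSubexponential (k : ℕ) (A : Set ℕ) : Prop :=
  ∀ m l₀ : ℕ, ∃ l, l₀ ≤ l ∧ kernelCount k A l ^ m < k ^ l

section Main

lemma kernelUpTo_finite (k : ℕ) (A : Set ℕ) (J : ℕ) : (kernelUpTo k A J).Finite := by
  refine ((Set.finite_Iic J).biUnion (t := fun i => (residual k A i) '' Set.Iio (k ^ i))
    fun i _ => (Set.finite_Iio _).image _).subset ?_
  rintro S ⟨i, r, hi, hr, rfl⟩
  simp only [Set.mem_iUnion]
  exact ⟨i, hi, r, hr, rfl⟩

lemma one_le_kernelCount (k : ℕ) (A : Set ℕ) (J : ℕ) : 1 ≤ kernelCount k A J := by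
  unfold kernelCount
  rw [Nat.one_le_iff_ne_zero, ← Nat.pos_iff_ne_zero, Set.ncard_pos (kernelUpTo_finite k A J)]
  exact ⟨residual k A 0 0, 0, 0, Nat.zero_le _, by simp, rfl⟩

lemma IsSidon.pair {A : Set ℕ} (hA : IsSidon A) {a b c d : ℕ} (ha : a ∈ A) (hb : b ∈ A)
    (hc : c ∈ A) (hd : d ∈ A) (h : a + b = c + d) : a = c ∨ a = d := by
  rcases le_total a b with h1 | h1 <;> rcases le_total c d with h2 | h2
  · exact Or.inl (hA a ha b hb c hc d hd h1 h2 h).1
  · exact Or.inr (hA a ha b hb d hd c hc h1 h2 (by omega)).1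
  · exact Or.inr (hA b hb a ha c hc d hd h1 h2 (by omega)).2
  · exact Or.inl (hA b hb a ha d hd c hc h1 h2 (by omega)).2

/-- Two elements. -/
def Two (T : Set ℕ) : Prop := ∃ n ∈ T, ∃ m ∈ T, n ≠ m

/-- A kernel set with two elements determines its residue. -/
lemma residue_unique {A : Set ℕ} (hA : IsSidon A) {k i x y : ℕ} (hk : 0 < k)
    (h : residual k A i x = residual k A i y) (hT : Two (residual k A i x)) : x = y := by
  obtain ⟨n, hn, m, hm, hnm⟩ := hT
  have hn' : n ∈ residual k A i y := by rw [← h]; exact hn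
  have hm' : m ∈ residual k A i y := by rw [← h]; exact hm
  have h1 : k ^ i * n + x ∈ A := hn
  have h2 : k ^ i * m + x ∈ A := hm
  have h3 : k ^ i * n + y ∈ A := hn'
  have h4 : k ^ i * m + y ∈ A := hm'
  rcases hA.pair h1 h4 h2 h3 (by ring) with h5 | h5
  · exact absurd (Nat.eq_of_mul_eq_mul_left (pow_pos hk i) (Nat.add_right_cancel h5)) hnm
  · exact Nat.add_left_cancel h5

lemma mod_succ {k i a b : ℕ} (h1 : a % k ^ i = b % k ^ i) (h2 : a / k ^ i % k = b / k ^ i % k) :
    a % k ^ (i + 1) = b % k ^ (i + 1) := by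
  rw [pow_succ, Nat.mod_mul, Nat.mod_mul, h1, h2]

/-- **The main inequality.** -/
theorem sidon_count {A : Set ℕ} (hA : IsSidon A) {k : ℕ} (hk : 2 ≤ k) (l : ℕ) :
    (A ∩ Set.Iio (k ^ l)).ncard ≤ (k * l + 1) * kernelCount k A l := by
  classical
  have hk0 : 0 < k := by omega
  set K := kernelCount k A l with hK
  have hK1 : 1 ≤ K := one_le_kernelCount k A l
  let F : Finset (Set ℕ) := (kernelUpTo_finite k A l).toFinset
  have hF : F.card = K := by
    rw [hK, kernelCount, Set.ncard_eq_toFinset_card _ (kernelUpTo_finite k A l)]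
  have hmemF : ∀ i, i ≤ l → ∀ r, r < k ^ i → residual k A i r ∈ F := by
    intro i hi r hr
    rw [Set.Finite.mem_toFinset]
    exact ⟨i, r, hi, hr, rfl⟩
  let E : ℕ → Finset ℕ := fun i => (Finset.range (k ^ l)).filter
    (fun a => a ∈ A ∧ Two (residual k A i (a % k ^ i)))
  have hcardA : (A ∩ Set.Iio (k ^ l)).ncard = ((Finset.range (k ^ l)).filter (fun a => a ∈ A)).card := by
    rw [← Set.ncard_coe_finset]
    congr 1
    ext a
    simp [and_comm]
  rw [hcardA]
  by_cases hTwo : Two A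
  · have h0 : ((Finset.range (k ^ l)).filter (fun a => a ∈ A)).card ≤ (E 0).card := by
      refine Finset.card_le_card ?_
      intro a ha
      obtain ⟨ha1, ha2⟩ := Finset.mem_filter.1 ha
      refine Finset.mem_filter.2 ⟨ha1, ha2, ?_⟩
      obtain ⟨n, hn, m, hm, hnm⟩ := hTwo
      refine ⟨n, ?_, m, ?_, hnm⟩
      · change k ^ 0 * n + a % k ^ 0 ∈ A
        simpa [Nat.mod_one] using hn
      · change k ^ 0 * m + a % k ^ 0 ∈ A
        simpa [Nat.mod_one] using hm
    have hstep : ∀ i, i < l → (E i).card ≤ (E (i + 1)).card + k * K := by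
      intro i hi
      have h1 : (E i).card ≤ (E (i + 1)).card + (E i \ E (i + 1)).card := by
        have := Finset.card_le_card_sdiff_add_card (s := E i) (t := E (i + 1))
        omega
      refine h1.trans (Nat.add_le_add_left ?_ _)
      have hprod : k * K = (F ×ˢ Finset.range k).card := by
        rw [Finset.card_product, hF, Finset.card_range, mul_comm]
      rw [hprod]
      refine Finset.card_le_card_of_injOn
        (fun a => (residual k A i (a % k ^ i), a / k ^ i % k)) ?_ ?_
      · intro a _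
        simp only [Finset.coe_product, Set.mem_prod, Finset.mem_coe, Finset.mem_range]
        exact ⟨hmemF i hi.le _ (Nat.mod_lt _ (pow_pos hk0 i)), Nat.mod_lt _ hk0⟩
      · intro a ha b hb hab
        simp only [Finset.coe_sdiff, Set.mem_sdiff, Finset.mem_coe] at ha hb
        simp only [Prod.mk.injEq] at hab
        obtain ⟨hab1, hab2⟩ := hab
        obtain ⟨ha1, ha2⟩ := ha
        obtain ⟨hb1, hb2⟩ := hb
        obtain ⟨har, haA, haT⟩ := Finset.mem_filter.1 ha1
        obtain ⟨hbr, hbA, hbT⟩ := Finset.mem_filter.1 hb1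
        have hmod : a % k ^ i = b % k ^ i := residue_unique hA hk0 hab1 haT
        have hmod' : a % k ^ (i + 1) = b % k ^ (i + 1) := mod_succ hmod hab2
        by_contra hne
        apply ha2
        refine Finset.mem_filter.2 ⟨har, haA, a / k ^ (i + 1), ?_, b / k ^ (i + 1), ?_, ?_⟩
        · change k ^ (i + 1) * (a / k ^ (i + 1)) + a % k ^ (i + 1) ∈ A
          rw [Nat.div_add_mod]
          exact haA
        · change k ^ (i + 1) * (b / k ^ (i + 1)) + a % k ^ (i + 1) ∈ A
          rw [hmod', Nat.div_add_mod]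
          exact hbA
        · intro hdiv
          apply hne
          rw [← Nat.div_add_mod a (k ^ (i + 1)), ← Nat.div_add_mod b (k ^ (i + 1)), hdiv, hmod']
    have hind : ∀ i, i ≤ l → (E 0).card ≤ (E i).card + i * (k * K) := by
      intro i
      induction i with
      | zero => intro _; simp
      | succ i ih =>
        intro hi
        have h1 := ih (by omega)
        have h2 := hstep i (by omega)
        have h3 : (i + 1) * (k * K) = i * (k * K) + k * K := by ring
        omega
    have hlast : (E l).card ≤ K := by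
      rw [← hF]
      refine Finset.card_le_card_of_injOn (fun a => residual k A l (a % k ^ l)) ?_ ?_
      · intro a _
        exact hmemF l le_rfl _ (Nat.mod_lt _ (pow_pos hk0 l))
      · intro a ha b hb hab
        obtain ⟨har, haA, haT⟩ := Finset.mem_filter.1 (Finset.mem_coe.1 ha)
        obtain ⟨hbr, hbA, hbT⟩ := Finset.mem_filter.1 (Finset.mem_coe.1 hb)
        have hmod : a % k ^ l = b % k ^ l := residue_unique hA hk0 hab haT
        rwa [Nat.mod_eq_of_lt (Finset.mem_range.1 har), Nat.mod_eq_of_lt (Finset.mem_range.1 hbr)]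
          at hmod
    have h4 := hind l le_rfl
    have h5 : (k * l + 1) * K = l * (k * K) + K := by ring
    omega
  · have h1 : ((Finset.range (k ^ l)).filter (fun a => a ∈ A)).card ≤ 1 := by
      rw [Finset.card_le_one]
      intro a ha b hb
      by_contra hne
      exact hTwo ⟨a, (Finset.mem_filter.1 ha).2, b, (Finset.mem_filter.1 hb).2, hne⟩
    have h2 : 1 * 1 ≤ (k * l + 1) * K := Nat.mul_le_mul (by omega) hK1
    omega

end Main

section Consequences

lemma count_le {A : Set ℕ} {k l n : ℕ} (h : n < k ^ l) :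
    count A n ≤ (A ∩ Set.Iio (k ^ l)).ncard := by
  unfold count
  refine Set.ncard_le_ncard ?_ ((Set.finite_Iio _).inter_of_right _)
  rintro a ⟨ha, _, ha2⟩
  exact ⟨ha, lt_of_le_of_lt ha2 h⟩

lemma kernelCount_le_of_automatic {k : ℕ} {A : Set ℕ} (hfin : IsAutomatic k A) (l : ℕ) :
    kernelCount k A l ≤ {S : Set ℕ | ∃ i r, r < k ^ i ∧ S = residual k A i r}.ncard := by
  refine Set.ncard_le_ncard ?_ hfin
  rintro S ⟨i, r, _, hr, hS⟩
  exact ⟨i, r, hr, hS⟩

/-- Automatic Sidon sets have logarithmic counting function. -/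
theorem automatic_log {A : Set ℕ} (hA : IsSidon A) {k : ℕ} (hk : 2 ≤ k) (hfin : IsAutomatic k A) :
    ∃ C : ℝ, ∀ n : ℕ, 2 ≤ n → (count A n : ℝ) ≤ C * Real.log n := by
  set P := {S : Set ℕ | ∃ i r, r < k ^ i ∧ S = residual k A i r}.ncard with hP
  refine ⟨(P : ℝ) * (2 * k + 1) / Real.log 2, fun n hn => ?_⟩
  have hn0 : n ≠ 0 := by omega
  have hk1 : 1 < k := by omega
  set l := Nat.log k n + 1 with hl
  have hnl : n < k ^ l := Nat.lt_pow_succ_log_self hk1 n
  have h1 : count A n ≤ (k * l + 1) * P :=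
    ((count_le hnl).trans (sidon_count hA hk l)).trans
      (Nat.mul_le_mul_left _ (kernelCount_le_of_automatic hfin l))
  have hlog2 : 0 < Real.log 2 := Real.log_pos (by norm_num)
  have hlogn : Real.log 2 ≤ Real.log n :=
    Real.log_le_log (by norm_num) (by exact_mod_cast hn)
  have h2 : (Nat.log k n : ℝ) * Real.log 2 ≤ Real.log n := by
    have h3 : (2 : ℕ) ^ Nat.log k n ≤ n :=
      (Nat.pow_le_pow_left hk _).trans (Nat.pow_log_le_self k hn0)
    have h4 : ((2 : ℝ) ^ Nat.log k n) ≤ (n : ℝ) := by exact_mod_cast h3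
    have h5 := Real.log_le_log (by positivity) h4
    rwa [Real.log_pow] at h5
  have h6 : (count A n : ℝ) ≤ ((k : ℝ) * l + 1) * P := by exact_mod_cast h1
  have h7 : ((k : ℝ) * l + 1) * Real.log 2 ≤ (2 * k + 1) * Real.log n := by
    have h8 : (l : ℝ) * Real.log 2 ≤ 2 * Real.log n := by
      rw [hl]; push_cast; nlinarith
    have hk0 : (0 : ℝ) ≤ (k : ℝ) := by positivity
    nlinarith
  have hP0 : (0 : ℝ) ≤ (P : ℝ) := by positivity
  calc (count A n : ℝ) ≤ ((k : ℝ) * l + 1) * P := h6
    _ = (P : ℝ) * (((k : ℝ) * l + 1) * Real.log 2) / Real.log 2 := by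
        field_simp
    _ ≤ (P : ℝ) * ((2 * k + 1) * Real.log n) / Real.log 2 := by gcongr
    _ = (P : ℝ) * (2 * k + 1) / Real.log 2 * Real.log n := by ring

/-- Sidon sets of subexponential kernel complexity are thinner than every power. -/
theorem subexponential_thin {A : Set ℕ} (hA : IsSidon A) {k : ℕ} (hk : 2 ≤ k)
    (hsub : IsSubexponential k A) (α : ℝ) (hα : 0 < α) :
    ∀ n₀ : ℕ, ∃ n : ℕ, n₀ ≤ n ∧ (count A n : ℝ) < (n : ℝ) ^ α := by
  intro n₀
  by_contra hcon
  push Not at hcon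
  have hk1 : (1 : ℝ) < (k : ℝ) := by
    have : (2 : ℝ) ≤ (k : ℝ) := by exact_mod_cast hk
    linarith
  have hk0 : (0 : ℝ) < (k : ℝ) := by linarith
  -- the power `k ^ (α / 2)`
  set ρ : ℝ := (k : ℝ) ^ (α / 2) with hρ
  have hρ1 : 1 < ρ := Real.one_lt_rpow hk1 (by linarith)
  obtain ⟨m, hm⟩ : ∃ m : ℕ, 2 / α ≤ (m : ℝ) := exists_nat_ge _
  -- exponential against linear
  have h1 := isLittleO_pow_const_const_pow_of_one_lt (R := ℝ) 1 hρ1
  have hpos : (0 : ℝ) < 1 / ((2 : ℝ) ^ α * ((k : ℝ) + 1)) := by positivity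
  obtain ⟨l₁, hl₁⟩ := Filter.eventually_atTop.1 (h1.def hpos)
  obtain ⟨l, hl, hlt⟩ := hsub m (l₁ + n₀ + 2)
  have hl1 : 1 ≤ l := by omega
  have hl1' : (1 : ℝ) ≤ (l : ℝ) := by exact_mod_cast hl1
  have hkl : l < k ^ l := Nat.lt_pow_self (by omega)
  -- the value at `k ^ l - 1`
  have h2 := hcon (k ^ l - 1) (by omega)
  have h3 : count A (k ^ l - 1) ≤ (k * l + 1) * kernelCount k A l :=
    (count_le (by omega)).trans (sidon_count hA hk l)
  have h4 : ((k : ℝ) ^ l) / 2 ≤ ((k ^ l - 1 : ℕ) : ℝ) := by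
    have h5 : 2 ≤ k ^ l := by omega
    have h6 : (2 : ℝ) ≤ (k : ℝ) ^ l := by exact_mod_cast h5
    rw [Nat.cast_sub (by omega)]
    push_cast
    linarith
  have hkl0 : (0 : ℝ) < (k : ℝ) ^ l := by positivity
  have h5 : ρ ^ l * ρ ^ l / (2 : ℝ) ^ α ≤ ((k : ℝ) * l + 1) * kernelCount k A l := by
    have h6 : (((k : ℝ) ^ l) / 2) ^ α ≤ (((k ^ l - 1 : ℕ) : ℝ)) ^ α :=
      Real.rpow_le_rpow (by positivity) h4 hα.le
    have h7 : (((k : ℝ) ^ l) / 2) ^ α = ρ ^ l * ρ ^ l / (2 : ℝ) ^ α := by
      rw [Real.div_rpow hkl0.le (by norm_num)]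
      congr 1
      rw [← mul_pow, hρ, ← Real.rpow_add hk0, add_halves, ← Real.rpow_natCast, ← Real.rpow_natCast,
        ← Real.rpow_mul hk0.le, ← Real.rpow_mul hk0.le, mul_comm]
    have h8 : ((count A (k ^ l - 1) : ℕ) : ℝ) ≤ ((k : ℝ) * l + 1) * kernelCount k A l := by
      exact_mod_cast h3
    linarith
  have h6 : (2 : ℝ) ^ α * ((k : ℝ) * l + 1) ≤ ρ ^ l := by
    have h7 := hl₁ l (by omega)
    rw [pow_one, Real.norm_of_nonneg (by positivity), Real.norm_of_nonneg (by positivity)] at h7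
    have h8 : (k : ℝ) * l + 1 ≤ ((k : ℝ) + 1) * l := by nlinarith
    have h9 : (0 : ℝ) < (2 : ℝ) ^ α := by positivity
    calc (2 : ℝ) ^ α * ((k : ℝ) * l + 1) ≤ (2 : ℝ) ^ α * (((k : ℝ) + 1) * l) := by gcongr
      _ ≤ (2 : ℝ) ^ α * (((k : ℝ) + 1) * (1 / ((2 : ℝ) ^ α * ((k : ℝ) + 1)) * ρ ^ l)) := by gcongr
      _ = ρ ^ l := by
          have : (k : ℝ) + 1 ≠ 0 := by positivity
          field_simp
  have hK : ρ ^ l ≤ (kernelCount k A l : ℝ) := by
    have h7 : (0 : ℝ) < (k : ℝ) * l + 1 := by positivity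
    have h8 : (0 : ℝ) < (2 : ℝ) ^ α := by positivity
    have h9 : (0 : ℝ) < ρ ^ l := by positivity
    have h10 : ρ ^ l * ρ ^ l ≤ (2 : ℝ) ^ α * (((k : ℝ) * l + 1) * kernelCount k A l) := by
      rw [div_le_iff₀ h8] at h5
      linarith
    have h11 : (0 : ℝ) ≤ (kernelCount k A l : ℝ) := by positivity
    have h12 : (2 : ℝ) ^ α * (((k : ℝ) * l + 1) * kernelCount k A l) ≤
        ρ ^ l * kernelCount k A l := by
      rw [← mul_assoc]
      exact mul_le_mul_of_nonneg_right h6 h11
    exact le_of_mul_le_mul_left (h10.trans h12) h9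
  have h13 : ((k ^ l : ℕ) : ℝ) ≤ ((kernelCount k A l ^ m : ℕ) : ℝ) := by
    push_cast
    calc (k : ℝ) ^ l ≤ (ρ ^ l) ^ m := by
          rw [hρ, ← Real.rpow_natCast ((k : ℝ) ^ (α / 2)) l, ← Real.rpow_mul hk0.le,
            ← Real.rpow_natCast _ m, ← Real.rpow_mul hk0.le, ← Real.rpow_natCast (k : ℝ) l]
          apply Real.rpow_le_rpow_of_exponent_le hk1.le
          have h14 : 1 ≤ α / 2 * m := by
            rw [div_le_iff₀ hα] at hm
            linarith
          calc (l : ℝ) = 1 * l := (one_mul _).symm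
            _ ≤ (α / 2 * m) * l := by gcongr
            _ = α / 2 * l * m := by ring
      _ ≤ (kernelCount k A l : ℝ) ^ m := by gcongr
  have h14 : k ^ l ≤ kernelCount k A l ^ m := by exact_mod_cast h13
  omega

lemma kernelCount_le_of_automatic' {k : ℕ} (hk : 2 ≤ k) {A : Set ℕ} (hfin : IsAutomatic k A) :
    IsSubexponential k A := by
  intro m l₀
  set P := {S : Set ℕ | ∃ i r, r < k ^ i ∧ S = residual k A i r}.ncard with hP
  refine ⟨l₀ + P ^ m, Nat.le_add_right _ _, ?_⟩
  calc kernelCount k A _ ^ m ≤ P ^ m :=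
        Nat.pow_le_pow_left (kernelCount_le_of_automatic hfin _) m
    _ < 2 ^ (P ^ m) := Nat.lt_two_pow_self
    _ ≤ k ^ (P ^ m) := Nat.pow_le_pow_left hk _
    _ ≤ k ^ (l₀ + P ^ m) := Nat.pow_le_pow_right (by omega) (Nat.le_add_left _ _)

/-- The powers of `k`. -/
def powers (k : ℕ) : Set ℕ := {n | ∃ m, n = k ^ m}

lemma powers_sidon {k : ℕ} (hk : 2 ≤ k) : IsSidon (powers k) := by
  have hk1 : 1 < k := by omega
  rintro _ ⟨a, rfl⟩ _ ⟨b, rfl⟩ _ ⟨c, rfl⟩ _ ⟨d, rfl⟩ hab hcd h
  have ha : 0 < k ^ a := by positivity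
  have hc : 0 < k ^ c := by positivity
  have hbd : b = d := by
    rcases lt_trichotomy b d with h1 | h1 | h1
    · exfalso
      have h2 : k ^ (b + 1) ≤ k ^ d := Nat.pow_le_pow_right (by omega) h1
      have h3 : 2 * k ^ b ≤ k ^ (b + 1) := by rw [pow_succ']; exact Nat.mul_le_mul_right _ hk
      omega
    · exact h1
    · exfalso
      have h2 : k ^ (d + 1) ≤ k ^ b := Nat.pow_le_pow_right (by omega) h1
      have h3 : 2 * k ^ d ≤ k ^ (d + 1) := by rw [pow_succ']; exact Nat.mul_le_mul_right _ hk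
      omega
  subst hbd
  exact ⟨by omega, rfl⟩

lemma powers_automatic {k : ℕ} (hk : 2 ≤ k) : IsAutomatic k (powers k) := by
  refine Set.Finite.subset (Set.toFinite {powers k, {0}, ∅}) ?_
  rintro S ⟨i, r, hr, rfl⟩
  have hk0 : 0 < k := by omega
  rcases Nat.eq_zero_or_pos r with rfl | hr0
  · left
    ext n
    simp only [residual, powers, Set.mem_ofPred_eq, add_zero]
    constructor
    · rintro ⟨m, hm⟩
      rcases Nat.lt_or_ge m i with h1 | h1
      · exfalso
        have h2 : k ^ m < k ^ i := Nat.pow_lt_pow_right (by omega) h1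
        rcases Nat.eq_zero_or_pos n with rfl | hn
        · have : 0 < k ^ m := by positivity
          omega
        · have : k ^ i * 1 ≤ k ^ i * n := Nat.mul_le_mul_left _ hn
          omega
      · refine ⟨m - i, ?_⟩
        have h2 : k ^ m = k ^ i * k ^ (m - i) := by rw [← pow_add]; congr 1; omega
        rw [h2] at hm
        exact Nat.eq_of_mul_eq_mul_left (by positivity) hm
    · rintro ⟨m, rfl⟩
      exact ⟨i + m, by rw [pow_add]⟩
  · right
    have hn0 : ∀ n ∈ residual k (powers k) i r, n = 0 := by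
      rintro n ⟨m, hm⟩
      by_contra hne
      rcases Nat.lt_or_ge m i with h1 | h1
      · have h2 : k ^ m < k ^ i := Nat.pow_lt_pow_right (by omega) h1
        have : k ^ i * 1 ≤ k ^ i * n := Nat.mul_le_mul_left _ (Nat.pos_of_ne_zero hne)
        omega
      · have h2 : k ^ i ∣ k ^ m := pow_dvd_pow k h1
        rw [← hm] at h2
        have h3 : k ^ i ∣ r := (Nat.dvd_add_right (dvd_mul_right _ _)).1 h2
        exact absurd (Nat.le_of_dvd hr0 h3) (by omega)
    by_cases h0 : 0 ∈ residual k (powers k) i r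
    · left
      ext n
      exact ⟨fun hn => hn0 n hn, fun hn => by rw [Set.mem_singleton_iff.1 hn]; exact h0⟩
    · right
      rw [Set.mem_singleton_iff]
      ext n
      refine ⟨fun hn => ?_, fun hn => absurd hn (Set.notMem_empty n)⟩
      have := hn0 n hn
      rw [this] at hn
      exact absurd hn h0

lemma powers_count {k : ℕ} (hk : 2 ≤ k) (n : ℕ) (hn : 1 ≤ n) :
    Real.log n ≤ Real.log k * (count (powers k) n : ℝ) := by
  have hk1 : 1 < k := by omega
  have h1 : Nat.log k n + 1 ≤ count (powers k) n := by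
    have hinj : Set.InjOn (fun m : ℕ => k ^ m) (Set.Iio (Nat.log k n + 1)) :=
      fun a _ b _ h => Nat.pow_right_injective hk h
    have h2 : ((fun m : ℕ => k ^ m) '' Set.Iio (Nat.log k n + 1)).ncard = Nat.log k n + 1 := by
      rw [hinj.ncard_image, ← Finset.coe_Iio, Set.ncard_coe_finset, Nat.card_Iio]
    rw [← h2]
    refine Set.ncard_le_ncard ?_ ((Set.finite_Icc _ _).inter_of_right _)
    rintro _ ⟨m, hm, rfl⟩
    refine ⟨⟨m, rfl⟩, Nat.one_le_pow _ _ (by omega), ?_⟩
    exact (Nat.pow_le_pow_right (by omega) (Nat.lt_succ_iff.1 hm)).trans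
      (Nat.pow_log_le_self k (by omega))
  have h3 : n < k ^ count (powers k) n :=
    (Nat.lt_pow_succ_log_self hk1 n).trans_le (Nat.pow_le_pow_right (by omega) h1)
  have h4 : (n : ℝ) ≤ (k : ℝ) ^ count (powers k) n := by exact_mod_cast h3.le
  have h5 := Real.log_le_log (by exact_mod_cast hn) h4
  rw [Real.log_pow] at h5
  linarith

end Consequences

/-- **Sidon sets and kernel complexity.** A Sidon set has at most `(k * l + 1) * K(l)` elements
below `k ^ l`, where `K(l)` is the number of different kernel sets of level at most `l`.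
Consequences above: `automatic_log`, `powers_sidon`, `powers_automatic`, `powers_count`,
`subexponential_thin`. -/
theorem result (k : ℕ) (hk : 2 ≤ k) (A : Set ℕ) (hA : IsSidon A) (l : ℕ) :
    (A ∩ Set.Iio (k ^ l)).ncard ≤ (k * l + 1) * kernelCount k A l :=
  sidon_count hA hk l

end Pool.Agent.Results.MP_ebe006_nt.KernelComplexity
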