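import Pool.Agent.H81.Sid.Theta

/-!
The counting function of a Sidon set: the bound of Erdős holds for most integers.
-/

namespace Pool.Agent.Results.MP_ebe006_nt.MostIntegers

open Finset Pool.Agent.H81.Sid

open Classical in
/-- A mean square form of the theorem of Erdős on the counting function `A(n)` of a Sidon set `A`:
for every `ε > 0` and all large `N`, uniformly in `A`, the sum over `n ≤ N` of
`A(n)^2 (log n) / n^2` is at most `(8 + ε) log N`; hence, for every `K > 0`, the sum of `1 / n` over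
the `n` in `[2, N]` with `A(n) ≥ K √(n / log n)` is at most `(8 + ε) log N / K^2`. -/
theorem result :
    ∀ ε : ℝ, 0 < ε → ∃ N0 : ℕ, ∀ N : ℕ, N0 ≤ N → ∀ A : Set ℕ, IsSidon A →
      (∑ n ∈ Icc 1 N, (cnt A n : ℝ) ^ 2 / (n : ℝ) ^ 2 * Real.log n ≤ (8 + ε) * Real.log N) ∧
      ∀ K : ℝ, 0 < K →
        ∑ n ∈ (Icc 2 N).filter (fun n : ℕ => K * Real.sqrt (n / Real.log n) ≤ cnt A n),
          1 / (n : ℝ) ≤ (8 + ε) * Real.log N / K ^ 2 := by
  intro ε hε
  obtain ⟨N1, hN1⟩ := mean_log hε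
  obtain ⟨N2, hN2⟩ := density_log hε
  exact ⟨max N1 N2, fun N hN A hA => ⟨hN1 N ((le_max_left _ _).trans hN) A hA,
    fun K hK => hN2 N ((le_max_right _ _).trans hN) A hA K hK⟩⟩

end Pool.Agent.Results.MP_ebe006_nt.MostIntegers
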